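import Pool.Agent.Lib.MP_3145b1_co.Asm
import Pool.Agent.Lib.MP_3145b1_co.Cube
import Pool.Agent.Lib.MP_3145b1_co.Par
import Pool.Agent.Lib.MP_3145b1_co.ZIns
import Pool.Agent.Lib.MP_3145b1_co.ZDisj
import Pool.Agent.Lib.MP_3145b1_co.Num
import Pool.Agent.Lib.MP_3145b1_co.LLL
import Pool.Agent.Lib.MP_3145b1_co.ZPr
import Pool.Agent.Lib.MP_3145b1_co.ZAv
import Pool.Agent.Lib.MP_3145b1_co.FSub
import Pool.Agent.Lib.MP_3145b1_co.Inf1
import Pool.Agent.Lib.MP_3145b1_co.OddP
import Pool.Agent.Lib.MP_3145b1_co.Tail
import Pool.Agent.Lib.MP_3145b1_co.InfL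

/-!
# Fourier min-entropy-influence for polynomials over `F_2` of bounded read

Every Boolean function is `(-1)^p` for exactly one polynomial `p` over the field with two elements,
the sum of the monomials `x^M = ∏_{i ∈ M} x_i`, `M ∈ P` (algebraic normal form), and also for
exactly one polynomial in the variables `x_i + a_i`, for a given origin `a`.

The condition `HR d K P`: for every variable `v` and every `m > d` the sum of `m / |M|` over the
monomials `M ∈ P` with `v ∈ M` and `|M| ≥ m` is at most `K`. It holds if every variable occurs in
at most `K` monomials of degree greater than `d`; there is no condition on the monomials of degree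
at most `d`. It also holds if every variable occurs, for every `m > d`, in at most `K / 2` monomials
with degree in `[m, 2 m)`, so that neither the read nor the degree has to be bounded.

Under this condition the Fourier min-entropy-influence inequality holds with a constant which
depends on `d` and `K` only.
-/

set_option autoImplicit false

namespace Pool.Agent.Results.MP_3145b1_co.BoundedRead

open Finset Pool.Agent.MP3145b1

theorem result (d K : ℕ) : ∃ c : ℝ, 0 < c ∧
    ∀ (n : ℕ) (f : (Fin n → Bool) → ℝ) (P : Finset (Finset (Fin n))) (a : Fin n → Bool),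
      HR d K P → (∀ x, f x = polySign P a x) →
        ∃ S : Finset (Fin n), Real.exp (-c * influence f) ≤ |coeff f S| := by
  obtain ⟨c, hc, h⟩ := asm zIns (zPr zIns (lll zIns zDisj num)) zAv fSub (inf1E par) tail
    (infL oddP tail) d K
  refine ⟨c, hc, ?_⟩
  intro n f P a hHR hf
  obtain ⟨S, hS⟩ := h n P hHR
  have hfe : (fun A => f (cubeEquiv a A)) = ff P := by
    funext A
    rw [hf, polySign_eq]
  refine ⟨S, ?_⟩
  rw [coeff_abs a, influence_eq a, hfe]
  exact hS

end Pool.Agent.Results.MP_3145b1_co.BoundedRead
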