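import Pool.Agent.Lib.MP_3145b1_co.RB.AllM

/-!
# Entropy and influence of read-once branching programs of bounded width

A Boolean function `f : (Fin n → Bool) → ℝ` has the values `1` and `-1`; `true` is the value `-1` of
a variable. `coeff f S`, `influence f`, `specEntropy f` are the Fourier coefficient, the total
influence and the spectral entropy (in bits).

`IsRobp w f` says that `f` is computed by a read-once branching program (ordered, with layers) of
width `w`: there are an order `π` of the variables, an initial state `x0 : Fin w`, for every time `i`
a transition function `s i : Fin w → Bool → Fin w`, and a set `o` of accepting states, such that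
`f x = -1` if the state after reading `x (π 0), x (π 1), ..., x (π (n - 1))` is accepting, and
`f x = 1` otherwise. There is no bound for the number `n` of the variables.

The theorem: for every `w` there is a constant `C` such that `Ent(f) ≤ C I(f)` for all these
functions, and so `f` has a Fourier coefficient of absolute value at least `2 ^ (- C I(f) / 2)`.
-/

set_option autoImplicit false

namespace Pool.Agent.MP3145b1.Old.BranchingPrograms

open Pool.Agent.MP3145b1 Pool.Agent.MP3145b1.RB

theorem result (w : ℕ) : ∃ C : ℝ, 0 < C ∧ ∀ (n : ℕ) (f : (Fin n → Bool) → ℝ), IsRobp w f →
    specEntropy f ≤ C * influence f ∧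
    ∃ S : Finset (Fin n), (2 : ℝ) ^ (-(C * influence f / 2)) ≤ |coeff f S| :=
  RB.fin w

end Pool.Agent.MP3145b1.Old.BranchingPrograms
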