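import Pool.Agent.Lib.MP_3145b1_co.EFin
import Pool.Agent.Lib.MP_3145b1_co.Par
import Pool.Agent.Lib.MP_3145b1_co.Gran
import Pool.Agent.Lib.MP_3145b1_co.Jen
import Pool.Agent.Lib.MP_3145b1_co.EntB

/-!
# Spectral entropy and exponential moments of the spectral distribution

For every Boolean function `f` and every `u > 0`
`Ent(f) ≤ 2 log₂ (2 / u) I(f) + 2 log₂ ∑_S (1 + u)^|S| f^(S)^2`.
It follows that some Fourier coefficient is at least `(u / 2)^I(f) / ∑_S (1 + u)^|S| f^(S)^2`, and
that `Ent(f) ≤ 2 I(f) log₂ (2 e D / I(f))` if `f` has degree at most `D`.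
-/

set_option autoImplicit false

namespace Pool.Agent.MP3145b1.Old.EntropyMoment

open Finset Pool.Agent.MP3145b1

theorem result (n : ℕ) (f : (Fin n → Bool) → ℝ) (hf : ∀ x, f x = 1 ∨ f x = -1) :
    (∀ u : ℝ, 0 < u → specEntropy f ≤
      2 * Real.logb 2 (2 / u) * influence f + 2 * Real.logb 2 (expMoment f u)) ∧
    (∀ u : ℝ, 0 < u → ∃ S : Finset (Fin n),
      (u / 2) ^ influence f / expMoment f u ≤ |coeff f S|) ∧
    (∀ D : ℕ, 0 < influence f → (∀ S : Finset (Fin n), D < S.card → coeff f S = 0) →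
      specEntropy f ≤ 2 * influence f * Real.logb 2 (2 * Real.exp 1 * D / influence f)) := by
  have hE := entB par (gran par) jen
  exact ⟨fun u hu => entropy_bound hE f hf u hu, fun u hu => exists_large par hE f hf u hu,
    fun D hI hD => entropy_degree par hE f hf D hI hD⟩

end Pool.Agent.MP3145b1.Old.EntropyMoment
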