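import Pool.Agent.Lib.MP_3145b1_co.RC.Asm

/-!
# Entropy and influence of read-once compositions of branching programs of bounded width

A Boolean function `f : (Fin N → Bool) → ℝ` has the values `1` and `-1`; `true` is the value `-1` of
a variable. `coeff f S`, `influence f`, `specEntropy f` are the Fourier coefficient, the total
influence and the spectral entropy (in bits).

`RO w f` (defined in `RC/SpecF.lean`) says that `f` is in the smallest class of functions which
contains the constants and the variables, and with functions `u i` (`i : ℕ`) of pairwise disjoint
sets of variables every function computed by a read-once branching program of width `w` over the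
`u i`: in the state `x : Fin w` at time `t` the program evaluates the function `u (v t x)` (which one
may depend on the state) and goes to the state `s t x b` at time `t + 1`, where `b` is `true` iff the
value is `-1`; after `n` steps the output is `-1` iff the state is in the set `o`. On every path from
the initial state each function is evaluated at most once.

The theorem: for every `w` there is a constant `C` such that for all these functions
`∑ (S ≠ ∅) f^(S)^2 log2 (1 / f^(S)^2) ≤ C (I(f) - Var(f))`, hence `Ent(f) ≤ C I(f)`, and some Fourier
coefficient has absolute value at least `2 ^ (- C I(f) / 2)`.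
-/

set_option autoImplicit false

namespace Pool.Agent.MP3145b1.Old.ReadOnceCompositions

open Pool.Agent.MP3145b1 Pool.Agent.MP3145b1.RC

theorem result (w : ℕ) : ∃ C : ℝ, 0 < C ∧ ∀ (N : ℕ) (f : (Fin N → Bool) → ℝ), RO w f →
    ∑ S ∈ (Finset.univ : Finset (Finset (Fin N))).erase ∅,
      coeff f S ^ 2 * Real.logb 2 (1 / coeff f S ^ 2) ≤ C * (influence f - (1 - coeff f ∅ ^ 2)) ∧
    specEntropy f ≤ C * influence f ∧
    ∃ S : Finset (Fin N), (2 : ℝ) ^ (-(C * influence f / 2)) ≤ |coeff f S| :=
  RC.aMain w

end Pool.Agent.MP3145b1.Old.ReadOnceCompositions
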